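import Pool.Agent.Helper45.RM.Main

/-!
# Both questions of Bloch and Soulé and homomorphisms to Heisenberg groups

Over `ℤ/N` (over `ℤ` if `N = 0`), the schemes of finite type are controlled, for both questions,
by the schemes of homomorphisms from right-angled Artin groups of finite bipartite graphs to the
Heisenberg group of dimension `2 m + 1` if `m ≥ 2`, but for `m ≤ 1` all the schemes of
homomorphisms from right-angled Artin groups of finite graphs are controlled by the base. If all
relations `[x_i, x_j] = [x_k, x_l]` are allowed then `m = 1` is enough.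
-/

set_option autoImplicit false

open AlgebraicGeometry CategoryTheory
open Pool.Agent.Helper81.HG Pool.Agent.Helper45.RM

namespace Pool.Agent.Results.MP_666bea_ag.HeisenbergGroups

universe u

theorem result (N : ℕ) :
    (∀ m, 2 ≤ m → Controls.{u} (BipartiteHeisClass N m) (FiniteType N)) ∧
    (∀ m, m ≤ 1 → Controls.{u} {Spec (CommRingCat.of (ZMod N))} (HeisClass N m)) ∧
    (∀ m, 1 ≤ m → Controls.{u} (CommClass N m) (FiniteType N)) :=
  let h := Pool.Agent.Helper45.RM.main.{u} N
  ⟨h.2.1, h.2.2.1, h.1⟩

end Pool.Agent.Results.MP_666bea_ag.HeisenbergGroups
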