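import Pool.Agent.Helper45.RM.MMain

/-!
# Both questions of Bloch and Soulé and realization schemes of matroids

Over `ℤ/N` (over `ℤ` if `N = 0`), for every `d ≥ 3`, the schemes of finite type are controlled,
for both questions, by the realization schemes of matroids of rank `d`, and by the schemes of
finite families of vectors of length `d` with prescribed linearly dependent `d`-tuples
(vanishing determinants). For `d ≤ 2` all these schemes are controlled by the base.
-/

set_option autoImplicit false

open AlgebraicGeometry CategoryTheory
open Pool.Agent.Helper81.HG Pool.Agent.Helper45.RM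

namespace Pool.Agent.Results.MP_666bea_ag.MatroidRealizations

universe u

theorem result (N : ℕ) :
    (∀ d, 3 ≤ d → Controls.{u} (MatroidClass N d) (FiniteType N)) ∧
    (∀ d, d ≤ 2 → Controls.{u} {Spec (CommRingCat.of (ZMod N))} (MatroidClass N d)) ∧
    (∀ d, 3 ≤ d → Controls.{u} (DependentClass N d) (FiniteType N)) ∧
    (∀ d, d ≤ 2 → Controls.{u} {Spec (CommRingCat.of (ZMod N))} (DependentClass N d)) :=
  main_matroid N

end Pool.Agent.Results.MP_666bea_ag.MatroidRealizations
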