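import Pool.Agent.OR.Main

/-!
# Both questions of Bloch and Soulé: one-relator groups and the affine group of the line

Over `ℤ/N` (over `ℤ` if `N = 0`), for each `n ≥ 2` and each `K`, these three classes of schemes
control each other: the schemes of homomorphisms from the groups with `n` generators and one
relation `v ^ k = 1`, where `k ≥ K` and `v` is in the commutator subgroup of the free group, to the
affine group of the line; those of the homomorphisms from all groups with `n` generators and
finitely many relations; and the schemes of finite type with fibres over `Spec ℤ` of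
dimension `< n`.
-/

set_option autoImplicit false

open AlgebraicGeometry CategoryTheory
open Pool.Agent.Helper81.HG Pool.Agent.OR

namespace Pool.Agent.Results.MP_666bea_ag.OneRelatorGroups

universe u

theorem result (N : ℕ) :
    (∀ X : Scheme.{0}, (∃ f : X ⟶ Spec (CommRingCat.of (ZMod N)),
      LocallyOfFiniteType f ∧ QuasiCompact f) → ∃ n, 2 ≤ n ∧ X ∈ FibreDimLT N n) ∧
    ∀ n K, 2 ≤ n → ∀ 𝒞 ∈ ({OneRelator N n K, FinitelyPresented N n, FibreDimLT N n} :
        Set (Set Scheme.{0})),
      ∀ 𝒞' ∈ ({OneRelator N n K, FinitelyPresented N n, FibreDimLT N n} :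
        Set (Set Scheme.{0})), Controls.{u} 𝒞' 𝒞 :=
  ⟨exists_fibreDim_two N, fun n K hn => main_all N n K hn⟩

end Pool.Agent.Results.MP_666bea_ag.OneRelatorGroups
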